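import Pool.Agent.K1H73.SQB.Stm2
import Pool.Agent.Y486.SQ.Law

set_option autoImplicit false

/-!
# Piece MOM2 of the project SQB: the joint binomial moments, consecutive squares
-/

namespace Pool.Agent.K1H67.SQB

open Finset Pool.Agent.H373R2.T7 Pool.Agent.Y862.SQ Pool.Agent.K1H73.SQB

variable {k : ℕ}

/-- the condition, base point `Z` -/
def QZ (q : ℕ) (a s : Fin k → ℕ) (Z : ℕ) (G : Fin k → Finset ℕ) (p n : ℕ) : Prop :=
  Qc q a s G p (n + Z)

lemma QZ_per (q : ℕ) (a s : Fin k → ℕ) (Z : ℕ) (G : Fin k → Finset ℕ) (p n : ℕ) :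
    QZ q a s Z G p n ↔ QZ q a s Z G p (n % p) := by
  unfold QZ Qc
  apply exists_congr
  intro i
  apply exists_congr
  intro h
  apply and_congr_right
  intro _
  have h1 : (n + Z + s i) ^ 2 + h ≡ (n % p + Z + s i) ^ 2 + h [MOD p] := by
    apply Nat.ModEq.add_right
    apply Nat.ModEq.pow
    apply Nat.ModEq.add_right
    apply Nat.ModEq.add_right
    exact (Nat.mod_modEq n p).symm
  have h2 : ((n + Z + s i) ^ 2 + h) % p = ((n % p + Z + s i) ^ 2 + h) % p := h1
  rw [Nat.ModEq.dvd_iff h1 (dvd_refl p), h2]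

open Classical in
lemma QZ_perB {q : ℕ} (hq : Squarefree q) (a s : Fin k → ℕ) (Z : ℕ) (G : Fin k → Finset ℕ) :
    PerB (QZ q a s Z G) (2 * ∑ i, (G i).card + q + 1) := by
  refine ⟨QZ_per q a s Z G, fun p hp => ?_⟩
  by_cases hpq : p ∣ q
  · have h1 : p ≤ q := Nat.le_of_dvd (Nat.pos_of_ne_zero hq.ne_zero) hpq
    have h2 := nuB_le (QZ q a s Z G) p
    omega
  · have h1 : (range p).filter (fun r => QZ q a s Z G p r) ⊆
        (univ : Finset (Fin k)).biUnion (fun i => (G i).biUnion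
          (fun h => (range p).filter (fun r => p ∣ (r + Z + s i) ^ 2 + h))) := by
      intro r hr
      rw [mem_filter] at hr
      obtain ⟨hr1, i, h, hh, hq1⟩ := hr
      rw [mem_biUnion]
      refine ⟨i, mem_univ _, ?_⟩
      rw [mem_biUnion]
      refine ⟨h, hh, mem_filter.2 ⟨hr1, ?_⟩⟩
      by_contra hnd
      exact hq1 ⟨hnd, fun hpq' => absurd hpq' hpq⟩
    have h2 : ((univ : Finset (Fin k)).biUnion (fun i => (G i).biUnion
          (fun h => (range p).filter (fun r => p ∣ (r + Z + s i) ^ 2 + h)))).card ≤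
        2 * ∑ i, (G i).card := by
      refine card_biUnion_le.trans ?_
      rw [mul_sum]
      refine sum_le_sum fun i _ => ?_
      have := Finset.card_biUnion_le_card_mul (G i)
        (fun h => (range p).filter (fun r => p ∣ (r + Z + s i) ^ 2 + h)) 2 (by
          intro b _
          have h5 := Pool.Agent.Y486.SQ.two_roots (Z + s i) b p hp
          simpa only [← add_assoc] using h5)
      rwa [mul_comm] at this
    have h3 : nuB (QZ q a s Z G) p = ((range p).filter (fun r => QZ q a s Z G p r)).card := by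
      unfold nuB
      congr
    rw [h3]
    have h4 := (card_le_card h1).trans h2
    omega

open Classical in
lemma nuB_QZ (q : ℕ) (a s : Fin k → ℕ) (Z : ℕ) (G : Fin k → Finset ℕ) (p : ℕ) :
    nuB (QZ q a s Z G) p = rC q a s G p := by
  have hper : Function.Periodic (fun n => QZ q a s 0 G p n) p := by
    intro n
    have h1 := QZ_per q a s 0 G p (n + p)
    rw [Nat.add_mod_right, ← QZ_per q a s 0 G p n] at h1
    exact propext h1
  have h2 := Nat.filter_Ico_card_eq_of_periodic Z p (fun n => QZ q a s 0 G p n) hper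
  have h3 := Nat.filter_Ico_card_eq_of_periodic 0 p (fun n => QZ q a s 0 G p n) hper
  rw [zero_add, Nat.Ico_zero_eq_range] at h3
  have h4 : rC q a s G p = ((Ico Z (Z + p)).filter (fun n => QZ q a s 0 G p n)).card := by
    rw [h2, ← h3]
    unfold rC
    congr
  rw [h4]
  unfold nuB
  apply Finset.card_bij (fun r _ => r + Z)
  · intro r hr
    rw [mem_filter, mem_range] at hr
    rw [mem_filter, mem_Ico]
    exact ⟨by omega, hr.2⟩
  · intro r _ r' _ hrr
    omega
  · intro n hn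
    rw [mem_filter, mem_Ico] at hn
    refine ⟨n - Z, ?_, by omega⟩
    rw [mem_filter, mem_range]
    refine ⟨by omega, ?_⟩
    have h5 := hn.2
    unfold QZ at h5 ⊢
    rw [Nat.sub_add_cancel hn.1.1]
    rwa [Nat.add_zero] at h5

lemma DG_eq (q : ℕ) (a s : Fin k → ℕ) (Z : ℕ) (G : Fin k → Finset ℕ) (y : ℕ) :
    ∏ p ∈ pz y, (1 - (nuB (QZ q a s Z G) p : ℝ) / p) = DC q a s G y := by
  unfold DC
  apply Finset.prod_congr rfl
  intro p _
  rw [nuB_QZ]

open Classical in
lemma prod_choose (q : ℕ) (a s κ S U : Fin k → ℕ) (y m : ℕ) :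
    ∏ i, (Nb q (a i) y (S i) (U i) (m + s i)).choose (κ i) =
      ((bx κ S U).filter (fun G => ∀ p ∈ pz y, ¬ Qc q a s G p m)).card := by
  have h1 : ∀ i, (Nb q (a i) y (S i) (U i) (m + s i)).choose (κ i) =
      (powersetCard (κ i) ((Ioc (S i) (U i)).filter
        (fun h => ok q (a i) y ((m + s i) ^ 2 + h)))).card := by
    intro i
    rw [card_powersetCard]
    unfold Nb
    congr
  rw [prod_congr rfl fun i _ => h1 i, ← Fintype.card_piFinset]
  congr 1
  ext G
  unfold bx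
  rw [mem_filter, Fintype.mem_piFinset, Fintype.mem_piFinset]
  constructor
  · intro h
    refine ⟨fun i => ?_, fun p hp hQ => ?_⟩
    · have := h i
      rw [mem_powersetCard] at this ⊢
      exact ⟨fun x hx => (mem_filter.1 (this.1 hx)).1, this.2⟩
    · obtain ⟨i, t, ht, hn⟩ := hQ
      have h2 := h i
      rw [mem_powersetCard] at h2
      exact hn ((mem_filter.1 (h2.1 ht)).2 p hp)
  · rintro ⟨h, h2⟩ i
    have := h i
    rw [mem_powersetCard] at this ⊢
    refine ⟨fun x hx => mem_filter.2 ⟨this.1 hx, fun p hp => ?_⟩, this.2⟩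
    by_contra hn
    exact h2 p hp ⟨i, x, hx, hn⟩

open Classical in
lemma moment_eq (q : ℕ) (a s κ S U : Fin k → ℕ) (Z y Y : ℕ) :
    ∑ n ∈ Icc 1 Y, ∏ i, ((Nb q (a i) y (S i) (U i) (n + Z + s i)).choose (κ i) : ℝ) =
      ∑ G ∈ bx κ S U, (((Icc 1 Y).filter (fun n => ∀ p ∈ pz y, ¬ QZ q a s Z G p n)).card : ℝ) := by
  have h1 : ∀ G ∈ bx κ S U,
      (((Icc 1 Y).filter (fun n => ∀ p ∈ pz y, ¬ QZ q a s Z G p n)).card : ℝ) =
      ∑ n ∈ Icc 1 Y, if (∀ p ∈ pz y, ¬ Qc q a s G p (n + Z)) then (1 : ℝ) else 0 := by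
    intro G _
    rw [Finset.sum_ite, Finset.sum_const_zero, add_zero, Finset.sum_const, nsmul_eq_mul, mul_one]
    rfl
  rw [Finset.sum_congr rfl h1, Finset.sum_comm]
  apply Finset.sum_congr rfl
  intro m _
  rw [Finset.sum_ite, Finset.sum_const_zero, add_zero, Finset.sum_const, nsmul_eq_mul, mul_one]
  have := prod_choose q a s κ S U y (m + Z)
  exact_mod_cast this

lemma card_bx {κ S U : Fin k → ℕ} {T : ℕ} (hU : ∀ i, U i ≤ T) :
    ((bx κ S U).card : ℝ) ≤ (T : ℝ) ^ (∑ i, κ i) := by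
  unfold bx
  rw [Fintype.card_piFinset, ← prod_pow_eq_pow_sum]
  push_cast
  refine prod_le_prod (fun i _ => by positivity) fun i _ => ?_
  rw [card_powersetCard, Nat.card_Ioc]
  have h1 : (U i - S i).choose (κ i) ≤ (U i - S i) ^ κ i := Nat.choose_le_pow _ _
  have h2 : (U i - S i) ^ κ i ≤ T ^ κ i := Nat.pow_le_pow_left (by have := hU i; omega) _
  exact_mod_cast h1.trans h2

theorem t_MOM2 (h : S_BOX2) : S_MOM2 := by
  classical
  intro k q a s κ x0 η hq ha hη
  obtain ⟨y1, T1, hbox⟩ := h k q a s κ x0 (η / 2) hq ha (by positivity)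
  set X1 : ℝ := (1 + |x0|) ^ (∑ i, κ i) with hX1
  have hX1pos : 0 < X1 := by positivity
  set ε' : ℝ := η / (2 * (X1 + η)) with hε'
  have hε'pos : 0 < ε' := by positivity
  have hε'2 : ε' * (X1 + η / 2) ≤ η / 2 := by
    rw [hε', div_mul_eq_mul_div, div_le_div_iff₀ (by positivity) (by norm_num)]
    nlinarith
  obtain ⟨K0, x1, -, hfund⟩ := sys_fund (2 * ∑ i, κ i + q + 1) (by omega) ε' hε'pos
  refine ⟨K0, max x1 y1, T1, ?_⟩
  intro Z Y y T hy hyY hT hx S U hU hD
  have hb := hbox y T ((le_max_right _ _).trans hy) hT hx S U hU hD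
  rw [moment_eq]
  have hV0 := Pool.Agent.Y486.SQ.V1_nonneg y
  have hY0 : (0 : ℝ) ≤ Y := Nat.cast_nonneg Y
  have hphi : (1 : ℝ) ≤ (Nat.totient q : ℝ) := by
    exact_mod_cast Nat.totient_pos.2 (Nat.pos_of_ne_zero hq.ne_zero)
  have hmu0 : ∀ i, 0 ≤ mu q y (S i) (U i) := fun i => by
    unfold mu; positivity
  have hmu1 : ∀ i, mu q y (S i) (U i) ≤ 1 + |x0| := fun i => by
    unfold mu
    have h1 : ((U i - S i : ℕ) : ℝ) * V1 y / (Nat.totient q : ℝ) ≤ ((U i - S i : ℕ) : ℝ) * V1 y :=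
      div_le_self (by positivity) hphi
    have h2 : ((U i - S i : ℕ) : ℝ) ≤ T := by
      have := hU i
      exact_mod_cast (by omega : U i - S i ≤ T)
    have h3 := mul_le_mul_of_nonneg_right h2 hV0
    have h4 := le_abs_self x0
    linarith
  have hmt : mt κ (fun i => mu q y (S i) (U i)) ≤ X1 := by
    unfold Pool.Agent.K1H73.SQB.mt
    rw [hX1, ← prod_pow_eq_pow_sum]
    refine prod_le_prod (fun i _ => by have := hmu0 i; positivity) fun i _ => ?_
    have hf1 : (1 : ℝ) ≤ ((κ i).factorial : ℝ) := by exact_mod_cast Nat.factorial_pos (κ i)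
    calc mu q y (S i) (U i) ^ κ i / ((κ i).factorial : ℝ) ≤ mu q y (S i) (U i) ^ κ i :=
          div_le_self (pow_nonneg (hmu0 i) _) hf1
      _ ≤ (1 + |x0|) ^ κ i := pow_le_pow_left₀ (hmu0 i) (hmu1 i) _
  set Sg : ℝ := ∑ G ∈ bx κ S U, DC q a s G y with hSg
  set W : ℝ := mt κ (fun i => mu q y (S i) (U i)) with hW
  have h1 : |∑ G ∈ bx κ S U,
      (((Icc 1 Y).filter (fun n => ∀ p ∈ pz y, ¬ QZ q a s Z G p n)).card : ℝ) - Y * Sg| ≤
      ε' * (Y * Sg) + (T : ℝ) ^ (∑ i, κ i) * √(Y : ℝ) := by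
    have e : Y * Sg = ∑ G ∈ bx κ S U, (Y : ℝ) * DC q a s G y := by
      rw [hSg, Finset.mul_sum]
    rw [e, ← Finset.sum_sub_distrib]
    refine (Finset.abs_sum_le_sum_abs _ _).trans ?_
    have h2 : ∀ G ∈ bx κ S U,
        |(((Icc 1 Y).filter (fun n => ∀ p ∈ pz y, ¬ QZ q a s Z G p n)).card : ℝ) -
          Y * DC q a s G y| ≤ ε' * (Y * DC q a s G y) + √(Y : ℝ) := by
      intro G hG
      have hcG : ∀ i, (G i).card = κ i := by
        intro i
        unfold bx at hG
        rw [Fintype.mem_piFinset] at hG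
        exact (mem_powersetCard.1 (hG i)).2
      have hper := QZ_perB hq a s Z G
      rw [sum_congr rfl fun i _ => hcG i] at hper
      have h3 := hfund Y y ((le_max_left _ _).trans hy) hyY (QZ q a s Z G) hper Y
      rw [DG_eq] at h3
      convert h3
    refine (Finset.sum_le_sum h2).trans ?_
    rw [Finset.sum_add_distrib, ← Finset.mul_sum, Finset.sum_const, nsmul_eq_mul]
    have h4 := mul_le_mul_of_nonneg_right (card_bx (κ := κ) (S := S) hU)
      (Real.sqrt_nonneg (Y : ℝ))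
    linarith
  have h5 : |Y * Sg - Y * W| ≤ Y * (η / 2) := by
    rw [← mul_sub, abs_mul, abs_of_nonneg hY0]
    exact mul_le_mul_of_nonneg_left hb hY0
  have h6 : ε' * (Y * Sg) ≤ η / 2 * Y := by
    have h7 : Sg ≤ X1 + η / 2 := by
      have := (abs_le.1 hb).2
      linarith
    calc ε' * (Y * Sg) = ε' * Sg * Y := by ring
      _ ≤ ε' * (X1 + η / 2) * Y := by gcongr
      _ ≤ η / 2 * Y := by gcongr
  have h9 := abs_sub_le (∑ G ∈ bx κ S U,
      (((Icc 1 Y).filter (fun n => ∀ p ∈ pz y, ¬ QZ q a s Z G p n)).card : ℝ)) (Y * Sg) (Y * W)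
  linarith

end Pool.Agent.K1H67.SQB
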